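import Pool.Agent.Lib.MP_0db35b_al.Assembly

set_option autoImplicit false

/-!
# Prescribing four stability indices of powers of an ideal

For all integers `a, d, r, v ≥ 1` and every field `K` there is a graded ideal in a polynomial ring
over `K` with `astab = a`, `dstab = d`, `rstab = r` and `vstab = v`.
-/

universe u

namespace Pool.Agent.Results.MP_0db35b_al.PrescribedStability

open MvPolynomial Pool.Agent.Lib.MP_0db35b_al

/-- Prescribing the four stability indices. -/
theorem result (K : Type u) [Field K] (a d r v : ℕ) (ha : 1 ≤ a) (hd : 1 ≤ d) (hr : 1 ≤ r)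
    (hv : 1 ≤ v) : ∃ (n : ℕ) (I : Ideal (MvPolynomial (Fin n) K)),
      (∀ f ∈ I, ∀ m : ℕ, homogeneousComponent m f ∈ I) ∧ I ≠ ⊥ ∧ I ≠ ⊤ ∧
      astab I = a ∧ dstab I = d ∧ rstab I = r ∧ vstab I = v :=
  main K a d r v ha hd hr hv

end Pool.Agent.Results.MP_0db35b_al.PrescribedStability
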